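import Mathlib

set_option autoImplicit false

namespace Pool.Agent.H570R2.Hitting

open Finset

abbrev Cl := Finset (ℕ × Bool)

/-- The point `σ` lies in the subcube given by `C`. -/
def Sat (σ : ℕ → Bool) (C : Cl) : Prop := ∀ l ∈ C, σ l.1 = l.2

/-- A partition of the cube into subcubes. -/
structure Hit (F : Finset Cl) : Prop where
  cons : ∀ C ∈ F, ∀ l : ℕ × Bool, l ∈ C → (l.1, !l.2) ∉ C
  clash : ∀ C ∈ F, ∀ D ∈ F, C ≠ D → ∃ l : ℕ × Bool, l ∈ C ∧ (l.1, !l.2) ∈ D
  cover : ∀ σ : ℕ → Bool, ∃ C ∈ F, Sat σ C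

def vars (F : Finset Cl) : Finset ℕ := F.biUnion (fun C => C.image Prod.fst)

def occ (F : Finset Cl) (l : ℕ × Bool) : Finset Cl := F.filter (fun D => l ∈ D)

lemma mem_vars {F : Finset Cl} {u : ℕ} : u ∈ vars F ↔ ∃ C ∈ F, ∃ b, (u, b) ∈ C := by
  unfold vars
  simp only [mem_biUnion, mem_image, Prod.exists, exists_and_right, exists_eq_right]

lemma mem_occ {F : Finset Cl} {l : ℕ × Bool} {C : Cl} : C ∈ occ F l ↔ C ∈ F ∧ l ∈ C := by
  unfold occ
  simp only [mem_filter]

lemma uniq {F : Finset Cl} (h : Hit F) {C D : Cl} (hC : C ∈ F) (hD : D ∈ F) {σ : ℕ → Bool}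
    (h1 : Sat σ C) (h2 : Sat σ D) : C = D := by
  by_contra hne
  obtain ⟨l, hl1, hl2⟩ := h.clash C hC D hD hne
  have e1 := h1 l hl1
  have e2 := h2 _ hl2
  simp only at e2
  rw [e1] at e2
  cases l.2 <;> simp at e2

lemma nbr {F : Finset Cl} (h : Hit F) {C : Cl} (hC : C ∈ F) {σ : ℕ → Bool}
    (hs : Sat σ C) {l : ℕ × Bool} (hm : (l.1, !l.2) ∈ C) :
    ∃ D ∈ F, l ∈ D ∧ Sat (Function.update σ l.1 l.2) D := by
  obtain ⟨D, hD, hDs⟩ := h.cover (Function.update σ l.1 l.2)
  refine ⟨D, hD, ?_, hDs⟩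
  by_contra hlD
  have key : Sat σ D := by
    intro m hm'
    have hne : m.1 ≠ l.1 := by
      intro he
      have h3 := hDs m hm'
      rw [he, Function.update_self] at h3
      apply hlD
      have : l = m := Prod.ext he.symm h3
      rw [this]; exact hm'
    have h3 := hDs m hm'
    rwa [Function.update_of_ne hne] at h3
  have hCD := uniq h hC hD hs key
  subst hCD
  have h3 := hDs _ hm
  simp only [Function.update_self] at h3
  cases l.2 <;> simp at h3

lemma exists_pt {C : Cl} (hc : ∀ l : ℕ × Bool, l ∈ C → (l.1, !l.2) ∉ C) (l : ℕ × Bool)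
    (hl : l ∉ C) : ∃ σ : ℕ → Bool, Sat σ C ∧ σ l.1 ≠ l.2 := by
  refine ⟨fun w => if (w, true) ∈ C then true else if (w, false) ∈ C then false else !l.2, ?_, ?_⟩
  · intro m hm
    obtain ⟨w, b⟩ := m
    have h1 := hc _ hm
    cases b
    · simp only [Bool.not_false] at h1
      simp [h1, hm]
    · simp [hm]
  · obtain ⟨w, b⟩ := l
    cases b
    · simp only [Bool.not_false]
      by_cases h1 : (w, true) ∈ C
      · simp [h1]
      · simp [h1, hl]
    · simp only [Bool.not_true]
      by_cases h1 : (w, false) ∈ C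
      · simp [h1, hl]
      · simp [h1, hl]

lemma exists_pt' {C : Cl} (hc : ∀ l : ℕ × Bool, l ∈ C → (l.1, !l.2) ∉ C) :
    ∃ σ : ℕ → Bool, Sat σ C := by
  refine ⟨fun w => if (w, true) ∈ C then true else false, ?_⟩
  intro m hm
  obtain ⟨w, b⟩ := m
  have h1 := hc _ hm
  cases b
  · simp only [Bool.not_false] at h1
    simp [h1]
  · simp [hm]

lemma not_not_lit (l : ℕ × Bool) : ((l.1, !l.2).1, !(l.1, !l.2).2) = l := by
  simp

/-- Both signs occur. -/
lemma both {F : Finset Cl} (h : Hit F) {l : ℕ × Bool} {C : Cl} (hC : C ∈ F) (hl : l ∈ C) :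
    ∃ D ∈ F, (l.1, !l.2) ∈ D := by
  obtain ⟨σ, hσ⟩ := exists_pt' (h.cons C hC)
  obtain ⟨D, hD, hD2, _⟩ := nbr (l := (l.1, !l.2)) h hC hσ (by simpa using hl)
  exact ⟨D, hD, hD2⟩

lemma claim1 {P : Finset Cl} (h : Hit P) {l : ℕ × Bool} {s : Cl} (hs : occ P l = {s})
    {D : Cl} (hD : D ∈ P) (hm : (l.1, !l.2) ∈ D) : s.erase l ⊆ D := by
  intro m hm'
  by_contra hmD
  obtain ⟨σ, hσ, hne⟩ := exists_pt (h.cons D hD) m hmD
  obtain ⟨D', hD', hl', hs'⟩ := nbr h hD hσ hm
  have : D' ∈ occ P l := mem_occ.2 ⟨hD', hl'⟩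
  rw [hs, mem_singleton] at this
  subst this
  rw [mem_erase] at hm'
  have h3 := hs' m hm'.2
  by_cases he : m.1 = l.1
  · rw [he, Function.update_self] at h3
    exact hm'.1 (Prod.ext he h3.symm)
  · rw [Function.update_of_ne he] at h3
    exact hne h3

lemma sing_inj {P : Finset Cl} (h : Hit P) {l l' : ℕ × Bool} {s : Cl} (hs : occ P l = {s})
    (hs' : occ P l' = {s}) : l = l' := by
  by_contra hne
  have hsP : s ∈ P ∧ l ∈ s := by
    have : s ∈ occ P l := by rw [hs]; exact mem_singleton_self s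
    exact mem_occ.1 this
  have hsP' : s ∈ P ∧ l' ∈ s := by
    have : s ∈ occ P l' := by rw [hs']; exact mem_singleton_self s
    exact mem_occ.1 this
  by_cases he : l.1 = l'.1
  · have h2 : l'.2 = !l.2 := by
      have : l.2 ≠ l'.2 := fun h => hne (Prod.ext he h)
      revert this
      cases l.2 <;> cases l'.2 <;> simp
    have h3 := h.cons s hsP.1 l hsP.2
    apply h3
    rw [← h2, he]
    exact hsP'.2
  · obtain ⟨D, hD, hD2⟩ := both h hsP.1 hsP.2
    have h3 := claim1 h hs hD hD2
    have h4 : l' ∈ D := h3 (mem_erase.2 ⟨fun h => hne h.symm, hsP'.2⟩)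
    have h5 : D ∈ occ P l' := mem_occ.2 ⟨hD, h4⟩
    rw [hs', mem_singleton] at h5
    subst h5
    exact h.cons D hD l hsP.2 hD2

/-- Restriction to the face `l.1 = l.2`. -/
def restr (F : Finset Cl) (l : ℕ × Bool) : Finset Cl :=
  (F.filter (fun C => (l.1, !l.2) ∉ C)).image (fun C => C.erase l)

lemma mem_restr {F : Finset Cl} {l : ℕ × Bool} {D : Cl} :
    D ∈ restr F l ↔ ∃ C ∈ F, (l.1, !l.2) ∉ C ∧ C.erase l = D := by
  unfold restr
  simp only [mem_image, mem_filter, and_assoc]

lemma erase_inj {F : Finset Cl} (h : Hit F) {l : ℕ × Bool} {C D : Cl} (hC : C ∈ F) (hD : D ∈ F)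
    (_hC' : (l.1, !l.2) ∉ C) (hD' : (l.1, !l.2) ∉ D) (he : C.erase l = D.erase l) : C = D := by
  by_contra hne
  obtain ⟨m, hm1, hm2⟩ := h.clash C hC D hD hne
  by_cases hml : m = l
  · rw [hml] at hm2; exact hD' hm2
  · have h1 : m ∈ C.erase l := mem_erase.2 ⟨hml, hm1⟩
    rw [he, mem_erase] at h1
    exact h.cons D hD m h1.2 hm2

lemma restr_injOn {F : Finset Cl} (h : Hit F) (l : ℕ × Bool) :
    Set.InjOn (fun C : Cl => C.erase l) (F.filter (fun C => (l.1, !l.2) ∉ C) : Finset Cl) := by
  intro C hC D hD he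
  rw [mem_coe, mem_filter] at hC hD
  exact erase_inj h hC.1 hD.1 hC.2 hD.2 he

lemma restr_card {F : Finset Cl} (h : Hit F) (l : ℕ × Bool) :
    (restr F l).card + (occ F (l.1, !l.2)).card = F.card := by
  unfold restr occ
  rw [card_image_of_injOn (restr_injOn h l), add_comm]
  exact card_filter_add_card_filter_not _

lemma restr_hit {F : Finset Cl} (h : Hit F) (l : ℕ × Bool) : Hit (restr F l) where
  cons := by
    intro D hD m hm hm'
    obtain ⟨C, hC, _, rfl⟩ := mem_restr.1 hD
    exact h.cons C hC m (mem_of_mem_erase hm) (mem_of_mem_erase hm')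
  clash := by
    intro D hD D' hD' hne
    obtain ⟨C, hC, hC1, rfl⟩ := mem_restr.1 hD
    obtain ⟨C', hC', hC1', rfl⟩ := mem_restr.1 hD'
    have hne' : C ≠ C' := by
      rintro rfl; exact hne rfl
    obtain ⟨m, hm1, hm2⟩ := h.clash C hC C' hC' hne'
    refine ⟨m, mem_erase.2 ⟨?_, hm1⟩, mem_erase.2 ⟨?_, hm2⟩⟩
    · rintro rfl; exact hC1' hm2
    · intro he
      apply hC1
      rw [← he]
      simpa using hm1
  cover := by
    intro σ
    obtain ⟨C, hC, hs⟩ := h.cover (Function.update σ l.1 l.2)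
    have hnot : (l.1, !l.2) ∉ C := by
      intro hm
      have h3 := hs _ hm
      simp only [Function.update_self] at h3
      cases l.2 <;> simp at h3
    refine ⟨C.erase l, mem_restr.2 ⟨C, hC, hnot, rfl⟩, ?_⟩
    intro m hm
    rw [mem_erase] at hm
    have h3 := hs m hm.2
    by_cases he : m.1 = l.1
    · exfalso
      rw [he, Function.update_self] at h3
      exact hm.1 (Prod.ext he h3.symm)
    · rwa [Function.update_of_ne he] at h3

lemma restr_vars {F : Finset Cl} (l : ℕ × Bool) : vars (restr F l) ⊆ (vars F).erase l.1 := by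
  intro u hu
  obtain ⟨D, hD, b, hb⟩ := mem_vars.1 hu
  obtain ⟨C, hC, hC1, rfl⟩ := mem_restr.1 hD
  rw [mem_erase] at hb
  refine mem_erase.2 ⟨?_, mem_vars.2 ⟨C, hC, b, hb.2⟩⟩
  rintro rfl
  by_cases hbl : b = l.2
  · exact hb.1 (Prod.ext rfl hbl)
  · apply hC1
    have : (!l.2) = b := by
      revert hbl; cases b <;> cases l.2 <;> simp
    rw [this]; exact hb.2

/-- Occurrences after restriction. -/
lemma restr_occ {F : Finset Cl} (h : Hit F) (l m : ℕ × Bool) (hm : m ≠ l) :
    (occ (restr F l) m).card = ((occ F m).filter (fun C => (l.1, !l.2) ∉ C)).card := by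
  have : occ (restr F l) m =
      ((occ F m).filter (fun C => (l.1, !l.2) ∉ C)).image (fun C => C.erase l) := by
    ext D
    simp only [mem_occ, mem_restr, mem_image, mem_filter]
    constructor
    · rintro ⟨⟨C, hC, hC1, rfl⟩, h2⟩
      exact ⟨C, ⟨⟨hC, (mem_erase.1 h2).2⟩, hC1⟩, rfl⟩
    · rintro ⟨C, ⟨⟨hC, h2⟩, hC1⟩, rfl⟩
      exact ⟨⟨C, hC, hC1, rfl⟩, mem_erase.2 ⟨hm, h2⟩⟩
  rw [this, card_image_of_injOn]
  intro C hC D hD he
  rw [mem_coe, mem_filter, mem_occ] at hC hD
  exact erase_inj h hC.1.1 hD.1.1 hC.2 hD.2 he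

/-- The clauses mentioning a variable. -/
def ment (F : Finset Cl) (u : ℕ) : Finset Cl := F.filter (fun C => u ∈ C.image Prod.fst)

lemma mem_ment {F : Finset Cl} {u : ℕ} {C : Cl} : C ∈ ment F u ↔ C ∈ F ∧ ∃ b, (u, b) ∈ C := by
  unfold ment
  simp only [mem_filter, mem_image, Prod.exists, exists_and_right, exists_eq_right]

lemma restr_vars_min {F : Finset Cl} (h : Hit F) (v : ℕ) (hv : v ∈ vars F)
    (hmin : ∀ u ∈ vars F, (ment F v).card ≤ (ment F u).card) (b : Bool) :
    vars (restr F (v, b)) = (vars F).erase v := by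
  apply Subset.antisymm (restr_vars (v, b))
  intro u hu
  rw [mem_erase] at hu
  by_contra hnot
  -- all mentions of u contain (v, !b)
  have h1 : ment F u ⊆ occ F (v, !b) := by
    intro C hC
    obtain ⟨hC, c, hc⟩ := mem_ment.1 hC
    by_contra hCo
    apply hnot
    have hC2 : (v, !b) ∉ C := fun h => hCo (mem_occ.2 ⟨hC, h⟩)
    refine mem_vars.2 ⟨C.erase (v, b), mem_restr.2 ⟨C, hC, hC2, rfl⟩, c, mem_erase.2 ⟨?_, hc⟩⟩
    intro he
    exact hu.1 (Prod.ext_iff.1 he).1
  -- v has an occurrence with sign b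
  obtain ⟨C, hC, c, hc⟩ := mem_vars.1 hv
  have h2 : ∃ D ∈ F, (v, b) ∈ D := by
    by_cases hcb : c = b
    · exact ⟨C, hC, hcb ▸ hc⟩
    · obtain ⟨D, hD, hD2⟩ := both h hC hc
      refine ⟨D, hD, ?_⟩
      have : (!c) = b := by revert hcb; cases b <;> cases c <;> simp
      simpa [this] using hD2
  obtain ⟨D, hD, hD2⟩ := h2
  have h3 : occ F (v, !b) ⊂ ment F v := by
    refine ⟨?_, ?_⟩
    · intro C hC
      obtain ⟨hC, hC'⟩ := mem_occ.1 hC
      exact mem_ment.2 ⟨hC, _, hC'⟩
    · intro hsub
      have : D ∈ occ F (v, !b) := hsub (mem_ment.2 ⟨hD, b, hD2⟩)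
      exact h.cons D hD (v, b) hD2 (mem_occ.1 this).2
  have h4 := card_le_card h1
  have h5 := card_lt_card h3
  have h6 := hmin u hu.2
  omega

lemma exists_min {F : Finset Cl} (hne : (vars F).Nonempty) :
    ∃ v ∈ vars F, ∀ u ∈ vars F, (ment F v).card ≤ (ment F u).card :=
  exists_min_image _ _ hne

/-- Tarsi's lemma. -/
lemma tarsi : ∀ (n : ℕ) (F : Finset Cl), (vars F).card = n → Hit F → n + 1 ≤ F.card := by
  intro n
  induction n with
  | zero =>
    intro F _ h
    obtain ⟨C, hC, _⟩ := h.cover (fun _ => true)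
    have := card_pos.2 ⟨C, hC⟩
    omega
  | succ n ih =>
    intro F hn h
    have hne : (vars F).Nonempty := by
      rw [← card_pos]; omega
    obtain ⟨v, hv, hmin⟩ := exists_min hne
    have h1 := restr_vars_min h v hv hmin true
    have h2 : (vars (restr F (v, true))).card = n := by
      rw [h1, card_erase_of_mem hv]; omega
    have h3 := ih _ h2 (restr_hit h _)
    have h4 := restr_card h (v, true)
    have h5 : 0 < (occ F (v, !true)).card := by
      obtain ⟨C, hC, c, hc⟩ := mem_vars.1 hv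
      cases c
      · exact card_pos.2 ⟨C, mem_occ.2 ⟨hC, hc⟩⟩
      · obtain ⟨D, hD, hD2⟩ := both h hC hc
        exact card_pos.2 ⟨D, mem_occ.2 ⟨hD, hD2⟩⟩
    simp only at h4
    omega

lemma occ_le {F : Finset Cl} (h : Hit F) (v : ℕ) (hv : v ∈ vars F)
    (hmin : ∀ u ∈ vars F, (ment F v).card ≤ (ment F u).card) (b : Bool) :
    (occ F (v, b)).card + (vars F).card ≤ F.card := by
  have h1 := restr_vars_min h v hv hmin (!b)
  have h2 := tarsi _ _ rfl (restr_hit h (v, !b))
  rw [h1, card_erase_of_mem hv] at h2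
  have h4 := restr_card h (v, !b)
  simp only [Bool.not_not] at h4
  have h5 : 0 < (vars F).card := card_pos.2 ⟨v, hv⟩
  omega

/-- Singular literals. -/
def sing (F : Finset Cl) : Finset (ℕ × Bool) := (F.biUnion id).filter (fun l => (occ F l).card = 1)

lemma mem_sing {F : Finset Cl} {l : ℕ × Bool} : l ∈ sing F ↔ (occ F l).card = 1 := by
  unfold sing
  simp only [mem_filter, mem_biUnion, id]
  constructor
  · exact fun h => h.2
  · intro h
    refine ⟨?_, h⟩
    obtain ⟨C, hC⟩ := card_pos.1 (by omega : 0 < (occ F l).card)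
    exact ⟨C, mem_occ.1 hC⟩

lemma mem_sing' {F : Finset Cl} {l : ℕ × Bool} : l ∈ sing F ↔ ∃ s, occ F l = {s} := by
  rw [mem_sing, card_eq_one]

/-- One elimination step. -/
lemma step {P : Finset Cl} (h : Hit P) {l : ℕ × Bool} (hl : l ∈ sing P) :
    Hit (restr P (l.1, !l.2)) ∧ (restr P (l.1, !l.2)).card + 1 = P.card ∧
    (vars (restr P (l.1, !l.2))).card + 1 = (vars P).card ∧
    (sing (restr P (l.1, !l.2))).card + 1 ≤ (sing P).card := by
  obtain ⟨s, hs⟩ := mem_sing'.1 hl
  have hsP : s ∈ P ∧ l ∈ s := by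
    have : s ∈ occ P l := by rw [hs]; exact mem_singleton_self s
    exact mem_occ.1 this
  set Q := restr P (l.1, !l.2) with hQ
  have hQhit : Hit Q := restr_hit h _
  have hlv : l.1 ∈ vars P := mem_vars.2 ⟨s, hsP.1, l.2, hsP.2⟩
  -- membership in Q
  have hmemQ : ∀ D, D ∈ Q ↔ ∃ C ∈ P, C ≠ s ∧ C.erase (l.1, !l.2) = D := by
    intro D
    rw [hQ, mem_restr]
    simp only [Bool.not_not]
    constructor
    · rintro ⟨C, hC, h1, h2⟩
      refine ⟨C, hC, ?_, h2⟩
      rintro rfl; exact h1 hsP.2
    · rintro ⟨C, hC, h1, h2⟩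
      refine ⟨C, hC, ?_, h2⟩
      intro h3
      have : C ∈ occ P l := mem_occ.2 ⟨hC, h3⟩
      rw [hs, mem_singleton] at this
      exact h1 this
  -- occurrences in Q
  have hoccQ : ∀ m : ℕ × Bool, m.1 ≠ l.1 →
      (occ Q m).card = ((occ P m).erase s).card := by
    intro m hm
    rw [hQ, restr_occ h _ _ (by intro he; apply hm; rw [he])]
    congr 1
    ext C
    simp only [mem_filter, mem_occ, mem_erase, Bool.not_not]
    constructor
    · rintro ⟨⟨h1, h2⟩, h3⟩
      refine ⟨?_, h1, h2⟩
      rintro rfl; exact h3 hsP.2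
    · rintro ⟨h1, h2, h3⟩
      refine ⟨⟨h2, h3⟩, ?_⟩
      intro h4
      have : C ∈ occ P l := mem_occ.2 ⟨h2, h4⟩
      rw [hs, mem_singleton] at this
      exact h1 this
  have hvarQ : vars Q = (vars P).erase l.1 := by
    apply Subset.antisymm (restr_vars _)
    intro u hu
    rw [mem_erase] at hu
    obtain ⟨C, hC, c, hc⟩ := mem_vars.1 hu.2
    by_cases hCs : C = s
    · obtain ⟨D, hD, hD2⟩ := both h hC hc
      refine mem_vars.2 ⟨D.erase (l.1, !l.2), (hmemQ _).2 ⟨D, hD, ?_, rfl⟩, !c,
        mem_erase.2 ⟨?_, hD2⟩⟩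
      · rintro rfl
        subst hCs
        exact h.cons _ hC _ hc hD2
      · intro he; exact hu.1 (Prod.ext_iff.1 he).1
    · refine mem_vars.2 ⟨C.erase (l.1, !l.2), (hmemQ _).2 ⟨C, hC, hCs, rfl⟩, c,
        mem_erase.2 ⟨?_, hc⟩⟩
      intro he; exact hu.1 (Prod.ext_iff.1 he).1
  refine ⟨hQhit, ?_, ?_, ?_⟩
  · have h1 := restr_card h (l.1, !l.2)
    simp only [Bool.not_not] at h1
    have h2 : (occ P l).card = 1 := by rw [hs]; rfl
    have h3 : (l.1, l.2) = l := rfl
    rw [h3, h2] at h1
    exact h1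
  · rw [hvarQ, card_erase_of_mem hlv]
    have := card_pos.2 ⟨_, hlv⟩
    omega
  · -- singular literals of Q
    have hsub : ∀ m ∈ sing Q, m.1 ≠ l.1 := by
      intro m hm he
      obtain ⟨C, hC⟩ := mem_sing'.1 hm
      have h1 : C ∈ occ Q m := by rw [hC]; exact mem_singleton_self C
      obtain ⟨h1, h2⟩ := mem_occ.1 h1
      have h3 : m.1 ∈ vars Q := mem_vars.2 ⟨C, h1, m.2, h2⟩
      rw [hvarQ, mem_erase] at h3
      exact h3.1 he
    -- new singular literals
    have hnew : ∀ m ∈ sing Q, m ∉ sing P → m ∈ s ∧ (l.1, !l.2) ∈ sing P ∧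
        ∀ D, (D ∈ P ∧ (l.1, !l.2) ∈ D) → occ Q m = {D.erase (l.1, !l.2)} := by
      intro m hm hmP
      have hml := hsub m hm
      rw [mem_sing, hoccQ m hml] at hm
      rw [mem_sing] at hmP
      have hms : s ∈ occ P m := by
        by_contra hcon
        rw [erase_eq_of_notMem hcon] at hm
        exact hmP hm
      rw [card_erase_of_mem hms] at hm
      have hcard2 : (occ P m).card = 2 := by
        omega
      have hms2 : m ∈ s := (mem_occ.1 hms).2
      -- every D containing (l.1, !l.2) contains m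
      have hD : ∀ D, (D ∈ P ∧ (l.1, !l.2) ∈ D) → D ∈ (occ P m).erase s := by
        rintro D ⟨hDP, hDl⟩
        have h1 := claim1 h hs hDP hDl
        refine mem_erase.2 ⟨?_, mem_occ.2 ⟨hDP, h1 (mem_erase.2 ⟨?_, hms2⟩)⟩⟩
        · rintro rfl; exact h.cons _ hDP _ hsP.2 hDl
        · rintro rfl; exact hml rfl
      obtain ⟨D₀, hD₀, hD₀2⟩ := both h hsP.1 hsP.2
      have h5 : ((occ P m).erase s).card = 1 := by
        rw [card_erase_of_mem hms]; omega
      obtain ⟨D₁, hD₁⟩ := card_eq_one.1 h5
      have hD₁' : ∀ D, (D ∈ P ∧ (l.1, !l.2) ∈ D) → D = D₁ := by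
        intro D hDD
        have := hD D hDD
        rw [hD₁, mem_singleton] at this
        exact this
      refine ⟨hms2, ?_, ?_⟩
      · rw [mem_sing']
        refine ⟨D₀, ?_⟩
        ext D
        rw [mem_occ, mem_singleton]
        constructor
        · intro hDD
          rw [hD₁' D hDD, hD₁' D₀ ⟨hD₀, hD₀2⟩]
        · rintro rfl; exact ⟨hD₀, hD₀2⟩
      · intro D hDD
        have h6 : (occ Q m).card = 1 := by rw [hoccQ m hml]; exact h5
        obtain ⟨E, hE⟩ := card_eq_one.1 h6
        have h7 : D.erase (l.1, !l.2) ∈ occ Q m := by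
          rw [mem_occ]
          have h8 := hD D hDD
          rw [mem_erase, mem_occ] at h8
          refine ⟨(hmemQ _).2 ⟨D, h8.2.1, h8.1, rfl⟩, mem_erase.2 ⟨?_, h8.2.2⟩⟩
          rintro rfl; exact hml rfl
        rw [hE, mem_singleton] at h7
        rw [hE, h7]
    by_cases hm1 : (l.1, !l.2) ∈ sing P
    · -- at most one new
      have hnew1 : (sing Q \ sing P).card ≤ 1 := by
        rw [card_le_one]
        intro m hm m' hm'
        rw [mem_sdiff] at hm hm'
        obtain ⟨D₀, hD₀, hD₀2⟩ := both h hsP.1 hsP.2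
        have e1 := (hnew m hm.1 hm.2).2.2 D₀ ⟨hD₀, hD₀2⟩
        have e2 := (hnew m' hm'.1 hm'.2).2.2 D₀ ⟨hD₀, hD₀2⟩
        exact sing_inj hQhit e1 e2
      have hold : sing Q ∩ sing P ⊆ ((sing P).erase l).erase (l.1, !l.2) := by
        intro m hm
        rw [mem_inter] at hm
        have h1 := hsub m hm.1
        refine mem_erase.2 ⟨?_, mem_erase.2 ⟨?_, hm.2⟩⟩
        · rintro rfl; exact h1 rfl
        · rintro rfl; exact h1 rfl
      have h2 := card_le_card hold
      have hne : (l.1, !l.2) ≠ l := by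
        intro he
        have := (Prod.ext_iff.1 he).2
        revert this
        cases l.2 <;> simp
      rw [card_erase_of_mem (mem_erase.2 ⟨hne, hm1⟩), card_erase_of_mem hl] at h2
      have h3 := card_sdiff_add_card_inter (sing Q) (sing P)
      have h4 : 2 ≤ (sing P).card := by
        have : ({l, (l.1, !l.2)} : Finset (ℕ × Bool)) ⊆ sing P := by
          intro x hx
          rw [mem_insert, mem_singleton] at hx
          rcases hx with rfl | rfl
          · exact hl
          · exact hm1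
        have := card_le_card this
        rwa [card_pair (Ne.symm hne)] at this
      omega
    · have hold : sing Q ⊆ (sing P).erase l := by
        intro m hm
        have h1 := hsub m hm
        refine mem_erase.2 ⟨?_, ?_⟩
        · rintro rfl; exact h1 rfl
        · by_contra hcon
          exact hm1 (hnew m hm hcon).2.1
      have h2 := card_le_card hold
      rw [card_erase_of_mem hl] at h2
      have := card_pos.2 ⟨_, hl⟩
      omega

/-- Reduction to a non-singular partition. -/
lemma reduce : ∀ (n : ℕ) (P : Finset Cl), (sing P).card = n → Hit P →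
    ∃ P' : Finset Cl, Hit P' ∧ sing P' = ∅ ∧ P'.card + (vars P).card = P.card + (vars P').card ∧
      (vars P).card ≤ (vars P').card + n := by
  intro n
  induction n using Nat.strong_induction_on with
  | _ n ih =>
    intro P hn h
    by_cases he : sing P = ∅
    · exact ⟨P, h, he, rfl, by omega⟩
    · obtain ⟨l, hl⟩ := nonempty_iff_ne_empty.2 he
      obtain ⟨h1, h2, h3, h4⟩ := step h hl
      obtain ⟨P', h5, h6, h7, h8⟩ := ih (sing (restr P (l.1, !l.2))).card (by omega) _ rfl h1
      exact ⟨P', h5, h6, by omega, by omega⟩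

/-- The literals counted at one clause on the `v = 0` side. -/
lemma count_one {F : Finset Cl} (h : Hit F) (v : ℕ) {B : Cl} (hB : B ∈ occ F (v, false))
    (L : Finset (ℕ × Bool))
    (hL : ∀ l ∈ L, l ∈ B ∧ ∃ s ∈ F, (∀ c, (v, c) ∉ s) ∧ occ (restr F (v, true)) l = {s}) :
    L.card ≤ (occ F (v, false)).card := by
  obtain ⟨hBF, hBv⟩ := mem_occ.1 hB
  set P := restr F (v, true) with hP
  have hPhit : Hit P := restr_hit h _
  obtain ⟨σ₀, hσ₀⟩ := exists_pt' (h.cons B hBF)
  have hσv : σ₀ v = false := hσ₀ _ hBv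
  have hLv : ∀ l ∈ L, l.1 ≠ v := by
    intro l hl he
    obtain ⟨_, s, _, hsv, hocc⟩ := hL l hl
    have : s ∈ occ P l := by rw [hocc]; exact mem_singleton_self s
    have h2 := (mem_occ.1 this).2
    apply hsv l.2
    rw [← he]; exact h2
  -- Claim 4
  have claim4 : ∀ l ∈ L, ∀ s, s ∈ F → (∀ c, (v, c) ∉ s) → occ P l = {s} →
      ¬ Sat σ₀ (s.erase l) := by
    intro l hl s hsF hsv _ hsat
    have hlB := (hL l hl).1
    have h1 : σ₀ l.1 = l.2 := hσ₀ l hlB
    have h2 : Sat σ₀ s := by
      intro m hm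
      by_cases hml : m = l
      · rw [hml]; exact h1
      · exact hsat m (mem_erase.2 ⟨hml, hm⟩)
    have h3 := uniq h hBF hsF hσ₀ h2
    apply hsv false
    rw [← h3]; exact hBv
  -- the part of `P` containing `σ₀`
  obtain ⟨C, hC, hCs⟩ := hPhit.cover σ₀
  have hCl : ∀ l ∈ L, ∀ c, (l.1, c) ∉ C := by
    intro l hl c hc
    obtain ⟨hlB, s, hsF, hsv, hocc⟩ := hL l hl
    apply claim4 l hl s hsF hsv hocc
    by_cases hcl : c = l.2
    · have : l ∈ C := by
        have e : l = (l.1, c) := Prod.ext rfl hcl.symm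
        rw [e]; exact hc
      have h2 : C ∈ occ P l := mem_occ.2 ⟨hC, this⟩
      rw [hocc, mem_singleton] at h2
      subst h2
      intro m hm
      exact hCs m (mem_of_mem_erase hm)
    · have e : c = !l.2 := by revert hcl; cases c <;> cases l.2 <;> simp
      rw [e] at hc
      have h2 := claim1 hPhit hocc hC hc
      intro m hm
      exact hCs m (h2 hm)
  obtain ⟨C₁, hC₁, hC₁v, rfl⟩ := mem_restr.1 hC
  simp only [Bool.not_true] at hC₁v
  have hC₁t : (v, true) ∈ C₁ := by
    by_contra hcon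
    rw [erase_eq_of_notMem hcon] at hCs
    have := uniq h hBF hC₁ hσ₀ hCs
    apply hC₁v
    rw [← this]; exact hBv
  -- main comparison
  apply card_le_card_of_forall_subsingleton
    (fun (l : ℕ × Bool) (D : Cl) => Sat (Function.update σ₀ l.1 (!l.2)) D)
  · intro l hl
    have hlv := hLv l hl
    have h1 : Sat (Function.update (Function.update σ₀ l.1 (!l.2)) v true) C₁ := by
      intro m hm
      by_cases hmv : m.1 = v
      · have : m.2 = true := by
          by_contra hcon
          apply hC₁v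
          have : m.2 = false := by revert hcon; cases m.2 <;> simp
          rw [← hmv, ← this]; exact hm
        rw [hmv, Function.update_self, this]
      · rw [Function.update_of_ne hmv]
        have hm2 : m ∈ C₁.erase (v, true) :=
          mem_erase.2 ⟨fun he => hmv (by rw [he]), hm⟩
        have hml : m.1 ≠ l.1 := by
          intro he
          apply hCl l hl m.2
          rw [← he]; exact hm2
        rw [Function.update_of_ne hml]
        exact hCs m hm2
    obtain ⟨D, hD, hD1, hD2⟩ := nbr (l := (v, false)) h hC₁ h1 (by simpa using hC₁t)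
    refine ⟨D, mem_occ.2 ⟨hD, hD1⟩, ?_⟩
    have e : Function.update (Function.update (Function.update σ₀ l.1 (!l.2)) v true)
        (v, false).1 (v, false).2 = Function.update σ₀ l.1 (!l.2) := by
      funext w
      by_cases hw : w = v
      · subst hw
        simp only [Function.update_self]
        rw [Function.update_of_ne (Ne.symm hlv), hσv]
      · simp only [Function.update_of_ne hw]
    rwa [e] at hD2
  · intro D hD l hl l' hl'
    rw [Set.mem_ofPred_eq] at hl hl'
    by_contra hne
    obtain ⟨hlL, hls⟩ := hl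
    obtain ⟨hlL', hls'⟩ := hl'
    have hlB := (hL l hlL).1
    have hlB' := (hL l' hlL').1
    have h1 : σ₀ l.1 = l.2 := hσ₀ l hlB
    have h1' : σ₀ l'.1 = l'.2 := hσ₀ l' hlB'
    have hne1 : l.1 ≠ l'.1 := by
      intro he
      apply hne
      refine Prod.ext he ?_
      rw [← h1, ← h1', he]
    have hDs : Sat σ₀ D := by
      intro m hm
      by_cases hml : m.1 = l.1
      · have h2 := hls' m hm
        rw [Function.update_of_ne (by rw [hml]; exact hne1)] at h2
        exact h2
      · have h2 := hls m hm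
        rw [Function.update_of_ne hml] at h2
        exact h2
    have h3 := uniq h hBF (mem_occ.1 hD).1 hσ₀ hDs
    subst h3
    have h4 := hls l hlB
    rw [Function.update_self] at h4
    revert h4
    cases l.2 <;> simp

lemma count {F : Finset Cl} (h : Hit F) (hns : sing F = ∅) (v : ℕ) :
    (sing (restr F (v, true))).card ≤
      (occ F (v, true)).card + (occ F (v, false)).card * (occ F (v, false)).card := by
  classical
  set P := restr F (v, true) with hP
  have hPhit : Hit P := restr_hit h _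
  set A := (occ F (v, true)).image (fun C : Cl => C.erase (v, true)) with hA
  set T₁ := (sing P).filter (fun l => ∃ s ∈ A, occ P l = {s}) with hT₁
  set T₂ : Cl → Finset (ℕ × Bool) := fun B => (sing P).filter
    (fun l => l ∈ B ∧ ∃ s ∈ F, (∀ c, (v, c) ∉ s) ∧ occ P l = {s}) with hT₂
  have hsub : sing P ⊆ T₁ ∪ (occ F (v, false)).biUnion T₂ := by
    intro l hl
    obtain ⟨s, hs⟩ := mem_sing'.1 hl
    have hsP : s ∈ P ∧ l ∈ s := by
      have : s ∈ occ P l := by rw [hs]; exact mem_singleton_self s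
      exact mem_occ.1 this
    obtain ⟨C, hC, hC1, hCs⟩ := mem_restr.1 hsP.1
    simp only [Bool.not_true] at hC1
    by_cases hCv : (v, true) ∈ C
    · apply mem_union_left
      rw [hT₁, mem_filter]
      exact ⟨hl, s, mem_image.2 ⟨C, mem_occ.2 ⟨hC, hCv⟩, hCs⟩, hs⟩
    · apply mem_union_right
      rw [erase_eq_of_notMem hCv] at hCs
      subst hCs
      have hCn : ∀ c, (v, c) ∉ C := by
        intro c; cases c
        · exact hC1
        · exact hCv
      have hlv : l.1 ≠ v := by
        intro he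
        apply hCn l.2
        rw [← he]; exact hsP.2
      -- there is another clause of `F` containing `l`
      have h1 : (occ F l).card ≠ 1 := by
        intro h1
        have : l ∈ sing F := mem_sing.2 h1
        rw [hns] at this
        exact absurd this (notMem_empty _)
      have h2 : C ∈ occ F l := mem_occ.2 ⟨hC, hsP.2⟩
      have h3 : ∃ B ∈ occ F l, B ≠ C := by
        by_contra hcon
        push Not at hcon
        apply h1
        rw [card_eq_one]
        exact ⟨C, by
          ext B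
          rw [mem_singleton]
          exact ⟨hcon B, by rintro rfl; exact h2⟩⟩
      obtain ⟨B, hB, hBC⟩ := h3
      obtain ⟨hBF, hBl⟩ := mem_occ.1 hB
      have hBv : (v, false) ∈ B := by
        by_contra hcon
        have h4 : B.erase (v, true) ∈ occ P l := by
          refine mem_occ.2 ⟨mem_restr.2 ⟨B, hBF, hcon, rfl⟩, mem_erase.2 ⟨?_, hBl⟩⟩
          rintro rfl; exact hlv rfl
        rw [hs, mem_singleton] at h4
        -- `B.erase (v,true) = C` with `C` not mentioning `v`
        apply hBC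
        apply erase_inj (l := (v, true)) h hBF hC hcon hC1
        rw [h4, erase_eq_of_notMem hCv]
      rw [mem_biUnion]
      refine ⟨B, mem_occ.2 ⟨hBF, hBv⟩, ?_⟩
      rw [hT₂]
      simp only [mem_filter]
      exact ⟨hl, hBl, C, hC, hCn, hs⟩
  have h1 : T₁.card ≤ (occ F (v, true)).card := by
    refine le_trans ?_ (card_image_le (s := occ F (v, true)) (f := fun C : Cl => C.erase (v, true)))
    apply card_le_card_of_forall_subsingleton (fun (l : ℕ × Bool) (s : Cl) => occ P l = {s})
    · intro l hl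
      rw [hT₁, mem_filter] at hl
      exact hl.2
    · intro s _ l hl l' hl'
      exact sing_inj hPhit hl.2 hl'.2
  have h2 : ((occ F (v, false)).biUnion T₂).card ≤
      (occ F (v, false)).card * (occ F (v, false)).card := by
    apply card_biUnion_le_card_mul
    intro B hB
    apply count_one h v hB
    intro l hl
    rw [hT₂] at hl
    simp only [mem_filter] at hl
    exact hl.2
  calc (sing P).card ≤ (T₁ ∪ (occ F (v, false)).biUnion T₂).card := card_le_card hsub
    _ ≤ T₁.card + ((occ F (v, false)).biUnion T₂).card := card_union_le _ _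
    _ ≤ _ := Nat.add_le_add h1 h2

/-- The bound: `bound 0 = 0`, `bound (k+1) = bound k + (k+1)^2 + (k+1) + 1`. -/
def bound : ℕ → ℕ
  | 0 => 0
  | k + 1 => bound k + ((k + 1) + (k + 1) * (k + 1)) + 1

lemma occ_two {F : Finset Cl} (h : Hit F) (hns : sing F = ∅) {v : ℕ} (hv : v ∈ vars F) (b : Bool) :
    2 ≤ (occ F (v, b)).card := by
  have h1 : (occ F (v, b)).Nonempty := by
    obtain ⟨C, hC, c, hc⟩ := mem_vars.1 hv
    by_cases hcb : c = b
    · exact ⟨C, mem_occ.2 ⟨hC, hcb ▸ hc⟩⟩
    · obtain ⟨D, hD, hD2⟩ := both h hC hc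
      refine ⟨D, mem_occ.2 ⟨hD, ?_⟩⟩
      have : (!c) = b := by revert hcb; cases b <;> cases c <;> simp
      simpa [this] using hD2
  have h2 : (occ F (v, b)).card ≠ 1 := by
    intro h2
    have : (v, b) ∈ sing F := mem_sing.2 h2
    rw [hns] at this
    exact absurd this (notMem_empty _)
  have := card_pos.2 h1
  omega

theorem vars_bound : ∀ (k : ℕ) (F : Finset Cl), Hit F → sing F = ∅ →
    F.card ≤ (vars F).card + k → (vars F).card ≤ bound k := by
  intro k
  induction k with
  | zero =>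
    intro F h _ hk
    have := tarsi _ F rfl h
    omega
  | succ k ih =>
    intro F h hns hk
    by_cases hne : (vars F).Nonempty
    · obtain ⟨v, hv, hmin⟩ := exists_min hne
      have ha := occ_le h v hv hmin true
      have hb := occ_le h v hv hmin false
      have hb2 := occ_two h hns hv false
      have hvar := restr_vars_min h v hv hmin true
      have hcard := restr_card h (v, true)
      simp only [Bool.not_true] at hcard
      have hcount := count h hns v
      obtain ⟨P', h1, h2, h3, h4⟩ := reduce _ (restr F (v, true)) rfl (restr_hit h _)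
      have hvarc : (vars (restr F (v, true))).card + 1 = (vars F).card := by
        rw [hvar, card_erase_of_mem hv]
        have := card_pos.2 hne
        omega
      have h5 := ih P' h1 h2 (by omega)
      have ha' : (occ F (v, true)).card ≤ k + 1 := by omega
      have hb' : (occ F (v, false)).card ≤ k + 1 := by omega
      have hbb : (occ F (v, false)).card * (occ F (v, false)).card ≤ (k + 1) * (k + 1) :=
        Nat.mul_le_mul hb' hb'
      unfold bound
      omega
    · rw [not_nonempty_iff_eq_empty] at hne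
      rw [hne]
      simp

end Pool.Agent.H570R2.Hitting
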