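import Pool.Agent.H570R2.ZamBound

/-!
Asymptotic consequences.
-/

namespace Pool.Agent.H570R2

open Filter

lemma eventually_sqrt_le (C ε : ℝ) (hC : 0 < C) (hε : 0 < ε) :
    ∀ᶠ x : ℝ in atTop, C * Real.sqrt (x * Real.logb 2 x) ≤ ε * x := by
  have hd : 0 < (ε / C) ^ 2 * Real.log 2 := by
    have := Real.log_pos (by norm_num : (1 : ℝ) < 2)
    positivity
  have h1 := (Real.isLittleO_log_id_atTop.def hd)
  filter_upwards [h1, eventually_ge_atTop (1 : ℝ)] with x hx hx1
  simp only [id, Real.norm_eq_abs] at hx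
  rw [abs_of_nonneg (Real.log_nonneg hx1), abs_of_nonneg (by linarith)] at hx
  have hl2 : 0 < Real.log 2 := Real.log_pos (by norm_num)
  have h2 : Real.logb 2 x ≤ (ε / C) ^ 2 * x := by
    rw [Real.logb, div_le_iff₀ hl2]
    linarith
  have h3 : Real.sqrt (x * Real.logb 2 x) ≤ (ε / C) * x := by
    rw [Real.sqrt_le_left (by positivity)]
    calc x * Real.logb 2 x ≤ x * ((ε / C) ^ 2 * x) := by gcongr
      _ = (ε / C * x) ^ 2 := by ring
  calc C * Real.sqrt (x * Real.logb 2 x) ≤ C * ((ε / C) * x) := by gcongr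
    _ = ε * x := by field_simp

/-- The ZAM complexity of every function with at most `N` columns. -/
theorem ZAM_le_of_card_le {X Y : Type} [Fintype Y] (f : X → Y → Bool) (N : ℕ) (hN : 4 ≤ N)
    (hY : Fintype.card Y ≤ N) :
    ZAM f ≤ ((⌊(2 : ℝ) ^ (54 * Real.sqrt (Real.logb 2 N * Real.logb 2 (Real.logb 2 N)))⌋₊ : ℕ) :
      ℕ∞) := by
  obtain ⟨n, hn⟩ : ∃ n, n = Nat.clog 2 N := ⟨_, rfl⟩
  have hNn : N ≤ 2 ^ n := by
    rw [hn]
    exact Nat.le_pow_clog (by norm_num) N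
  have hn2 : 2 ≤ n := by
    rw [hn]
    by_contra hcon
    push Not at hcon
    have h1 : Nat.clog 2 N ≤ 1 := by omega
    have h2 : N ≤ 2 ^ 1 := (Nat.clog_le_iff_le_pow (by norm_num)).1 h1
    omega
  refine (ZAM_le_of_card f n hn2 (hY.trans hNn)).trans ?_
  rw [Nat.cast_le]
  apply Nat.floor_le_floor
  apply Real.rpow_le_rpow_of_exponent_le (by norm_num)
  have hNR : (4 : ℝ) ≤ N := by exact_mod_cast hN
  have hL2 : 2 ≤ Real.logb 2 N := by
    rw [Real.le_logb_iff_rpow_le (by norm_num) (by linarith)]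
    have : (2 : ℝ) ^ (2 : ℝ) = 4 := by
      rw [show (2 : ℝ) ^ (2 : ℝ) = (2 : ℝ) ^ ((2 : ℕ) : ℝ) by norm_num, Real.rpow_natCast]
      norm_num
    rw [this]
    exact hNR
  have hLL : 1 ≤ Real.logb 2 (Real.logb 2 N) := by
    rw [Real.le_logb_iff_rpow_le (by norm_num) (by linarith)]
    simpa using hL2
  have hnL : (n : ℝ) ≤ Real.logb 2 N + 1 := by
    have h1 : 2 ^ (n - 1) < N := by
      rw [hn]
      exact Nat.pow_pred_clog_lt_self (by norm_num) (by omega)
    have h2 : ((n - 1 : ℕ) : ℝ) ≤ Real.logb 2 N := by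
      rw [Real.le_logb_iff_rpow_le (by norm_num) (by linarith), Real.rpow_natCast]
      exact_mod_cast h1.le
    have h3 : ((n - 1 : ℕ) : ℝ) = (n : ℝ) - 1 := by
      rw [Nat.cast_sub (by omega)]
      simp
    rw [h3] at h2
    linarith
  have hn0 : (0 : ℝ) < n := by
    have : (2 : ℝ) ≤ n := by exact_mod_cast hn2
    linarith
  have hn1 : (1 : ℝ) ≤ n := by
    have : (2 : ℝ) ≤ n := by exact_mod_cast hn2
    linarith
  have hn2L : (n : ℝ) ≤ 2 * Real.logb 2 N := by linarith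
  have hlogn : Real.logb 2 n ≤ 2 * Real.logb 2 (Real.logb 2 N) := by
    calc Real.logb 2 n ≤ Real.logb 2 (2 * Real.logb 2 N) :=
          Real.logb_le_logb_of_le (by norm_num) hn0 hn2L
      _ = 1 + Real.logb 2 (Real.logb 2 N) := by
          rw [Real.logb_mul (by norm_num) (by linarith), Real.logb_self_eq_one (by norm_num)]
      _ ≤ 2 * Real.logb 2 (Real.logb 2 N) := by linarith
  have hlog0 : 0 ≤ Real.logb 2 n := Real.logb_nonneg (by norm_num) hn1
  have h5 : Real.sqrt (n * Real.logb 2 n) ≤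
      2 * Real.sqrt (Real.logb 2 N * Real.logb 2 (Real.logb 2 N)) := by
    have e : 2 * Real.sqrt (Real.logb 2 N * Real.logb 2 (Real.logb 2 N)) =
        Real.sqrt (4 * (Real.logb 2 N * Real.logb 2 (Real.logb 2 N))) := by
      rw [Real.sqrt_mul (by norm_num : (0 : ℝ) ≤ 4), show (4 : ℝ) = 2 ^ 2 by norm_num,
        Real.sqrt_sq (by norm_num)]
    rw [e]
    apply Real.sqrt_le_sqrt
    calc (n : ℝ) * Real.logb 2 n ≤ (2 * Real.logb 2 N) * (2 * Real.logb 2 (Real.logb 2 N)) := by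
          gcongr
      _ = 4 * (Real.logb 2 N * Real.logb 2 (Real.logb 2 N)) := by ring
  linarith

end Pool.Agent.H570R2
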