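import Pool.Agent.H570R2.ZamMV

/-!
Choice of parameters: sub-polynomial ZAM protocols for every function.
-/

namespace Pool.Agent.H570R2

open Finset

/-- An antichain indexed by a set of size at most `σ ^ w`. -/
lemma exists_antichain {Y : Type} [Fintype Y] (w σ : ℕ) (hY : Fintype.card Y ≤ σ ^ w) :
    ∃ S : Y → Finset (Fin w × Fin σ), (∀ y, (S y).card ≤ w) ∧
      ∀ y y', y ≠ y' → ¬ S y ⊆ S y' := by
  have hc : Fintype.card Y ≤ Fintype.card (Fin w → Fin σ) := by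
    rw [Fintype.card_fun, Fintype.card_fin, Fintype.card_fin]
    exact hY
  obtain ⟨φ⟩ := Function.Embedding.nonempty_of_card_le hc
  refine ⟨fun y => univ.image (fun j => (j, φ y j)), ?_, ?_⟩
  · intro y
    refine Finset.card_image_le.trans ?_
    simp
  · intro y y' hyy' hsub
    apply hyy'
    apply φ.injective
    funext j
    have h1 : (j, φ y j) ∈ univ.image (fun j => (j, φ y' j)) :=
      hsub (Finset.mem_image.2 ⟨j, Finset.mem_univ _, rfl⟩)
    obtain ⟨k, _, hk⟩ := Finset.mem_image.1 h1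
    simp only [Prod.mk.injEq] at hk
    obtain ⟨rfl, hk⟩ := hk
    exact hk.symm

/-- Bounding a binomial coefficient. -/
lemma choose_bound (h r n : ℕ) (w : ℝ) (hn : 2 ≤ n) (hr : (r : ℝ) ≤ 3 * Real.sqrt w)
    (ha : h + r ≤ n ^ 4) :
    ((h + r).choose r : ℝ) ≤ 2 ^ (12 * Real.sqrt w * Real.logb 2 n) := by
  have hn1 : (1 : ℝ) ≤ n := by exact_mod_cast (by omega : 1 ≤ n)
  have hn0 : (0 : ℝ) < n := by linarith
  calc ((h + r).choose r : ℝ) ≤ ((h + r : ℕ) : ℝ) ^ r := by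
        exact_mod_cast Nat.choose_le_pow (h + r) r
    _ ≤ ((n : ℝ) ^ 4) ^ r := by
        apply pow_le_pow_left₀ (by positivity)
        exact_mod_cast ha
    _ = (n : ℝ) ^ ((4 * r : ℕ) : ℝ) := by
        rw [Real.rpow_natCast, pow_mul]
    _ ≤ (n : ℝ) ^ (12 * Real.sqrt w) := by
        apply Real.rpow_le_rpow_of_exponent_le hn1
        push_cast
        linarith
    _ = 2 ^ (12 * Real.sqrt w * Real.logb 2 n) := by
        rw [mul_comm (12 * Real.sqrt w) (Real.logb 2 n),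
          Real.rpow_mul (by norm_num : (0 : ℝ) ≤ 2),
          Real.rpow_logb (by norm_num) (by norm_num) hn0]

/-- The ZAM complexity of every function with at most `2 ^ n` columns is at most
`2 ^ (27 √(n log₂ n))`. -/
theorem ZAM_le_of_card {X Y : Type} [Fintype Y] (f : X → Y → Bool) (n : ℕ) (hn : 2 ≤ n)
    (hY : Fintype.card Y ≤ 2 ^ n) :
    ZAM f ≤ ((⌊(2 : ℝ) ^ (27 * Real.sqrt (n * Real.logb 2 n))⌋₊ : ℕ) : ℕ∞) := by
  classical
  obtain ⟨l, hl⟩ : ∃ l, l = Nat.log 2 n := ⟨_, rfl⟩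
  have hl1 : 1 ≤ l := by
    rw [hl]
    exact Nat.log_pos (by norm_num) hn
  have hσ : 2 ^ l ≤ n := by
    rw [hl]
    exact Nat.pow_log_le_self 2 (by omega)
  have hσ2 : n < 2 ^ (l + 1) := by
    rw [hl]
    exact Nat.lt_pow_succ_log_self (by norm_num) n
  obtain ⟨w, hw⟩ : ∃ w, w = n / l + 1 := ⟨_, rfl⟩
  have hwl : n ≤ l * w := by
    have := Nat.div_add_mod n l
    have h2 := Nat.mod_lt n (by omega : l > 0)
    rw [hw, mul_add, mul_one]
    omega
  have hcard : Fintype.card Y ≤ (2 ^ l) ^ w := by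
    rw [← pow_mul]
    exact hY.trans (Nat.pow_le_pow_right (by norm_num) hwl)
  obtain ⟨S, hS1, hS2⟩ := exists_antichain w (2 ^ l) hcard
  obtain ⟨s, hs⟩ : ∃ s, s = Nat.log 4 w + 1 := ⟨_, rfl⟩
  obtain ⟨t, ht⟩ : ∃ t, t = Nat.log 9 w + 1 := ⟨_, rfl⟩
  have hw1 : 1 ≤ w := by
    rw [hw]
    exact Nat.le_add_left _ _
  have hs1 : 4 ^ s ≤ 4 * w := by
    rw [hs, pow_succ]
    have := Nat.pow_log_le_self 4 (by omega : w ≠ 0)
    omega
  have hs2 : w < 4 ^ s := by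
    rw [hs]
    exact Nat.lt_pow_succ_log_self (by norm_num) w
  have ht1 : 9 ^ t ≤ 9 * w := by
    rw [ht, pow_succ]
    have := Nat.pow_log_le_self 9 (by omega : w ≠ 0)
    omega
  have ht2 : w < 9 ^ t := by
    rw [ht]
    exact Nat.lt_pow_succ_log_self (by norm_num) w
  have hst : w < 2 ^ s * 3 ^ t := by
    have h4 : (4 : ℕ) ^ s = 2 ^ s * 2 ^ s := by
      rw [← mul_pow]
      norm_num
    have h9 : (9 : ℕ) ^ t = 3 ^ t * 3 ^ t := by
      rw [← mul_pow]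
      norm_num
    by_contra hcon
    push Not at hcon
    have h5 : w * w < 4 ^ s * 9 ^ t := Nat.mul_lt_mul'' hs2 ht2
    have h6 : 4 ^ s * 9 ^ t = (2 ^ s * 3 ^ t) * (2 ^ s * 3 ^ t) := by
      rw [h4, h9]
      ring
    have h7 : (2 ^ s * 3 ^ t) * (2 ^ s * 3 ^ t) ≤ w * w := Nat.mul_le_mul hcon hcon
    omega
  refine (ZAM_le_of_antichain f S w s t hS1 hS2 hst).trans ?_
  rw [Nat.cast_le]
  apply Nat.le_floor
  -- real bounds
  have hwR : (0 : ℝ) ≤ w := Nat.cast_nonneg w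
  have hwR1 : (1 : ℝ) ≤ w := by exact_mod_cast hw1
  have hsqw : Real.sqrt w * Real.sqrt w = w := Real.mul_self_sqrt hwR
  have hsq0 : 0 ≤ Real.sqrt w := Real.sqrt_nonneg _
  have h2s : ((2 : ℝ) ^ s) ≤ 2 * Real.sqrt w := by
    have e : Real.sqrt (4 * (w : ℝ)) = 2 * Real.sqrt w := by
      rw [Real.sqrt_mul (by norm_num), show (4 : ℝ) = 2 ^ 2 by norm_num,
        Real.sqrt_sq (by norm_num)]
    rw [← e]
    apply Real.le_sqrt_of_sq_le
    have : ((4 : ℕ) ^ s : ℝ) ≤ 4 * w := by exact_mod_cast hs1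
    calc ((2 : ℝ) ^ s) ^ 2 = (4 : ℝ) ^ s := by
          rw [← pow_mul, mul_comm, pow_mul]; norm_num
      _ ≤ 4 * w := by exact_mod_cast this
  have h3t : ((3 : ℝ) ^ t) ≤ 3 * Real.sqrt w := by
    have e : Real.sqrt (9 * (w : ℝ)) = 3 * Real.sqrt w := by
      rw [Real.sqrt_mul (by norm_num), show (9 : ℝ) = 3 ^ 2 by norm_num,
        Real.sqrt_sq (by norm_num)]
    rw [← e]
    apply Real.le_sqrt_of_sq_le
    have : ((9 : ℕ) ^ t : ℝ) ≤ 9 * w := by exact_mod_cast ht1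
    calc ((3 : ℝ) ^ t) ^ 2 = (9 : ℝ) ^ t := by
          rw [← pow_mul, mul_comm, pow_mul]; norm_num
      _ ≤ 9 * w := by exact_mod_cast this
  have hr2 : (((2 ^ s - 1 : ℕ)) : ℝ) ≤ 3 * Real.sqrt w := by
    have h8 : (((2 ^ s - 1 : ℕ)) : ℝ) ≤ (2 : ℝ) ^ s := by
      exact_mod_cast Nat.sub_le (2 ^ s) 1
    linarith
  have hr3 : (((3 ^ t - 1 : ℕ)) : ℝ) ≤ 3 * Real.sqrt w := by
    have h8 : (((3 ^ t - 1 : ℕ)) : ℝ) ≤ (3 : ℝ) ^ t := by
      exact_mod_cast Nat.sub_le (3 ^ t) 1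
    linarith
  have hwn : w ≤ n + 1 := by
    rw [hw]
    have := Nat.div_le_self n l
    omega
  have hsqw1 : Real.sqrt w ≤ w := by
    rw [Real.sqrt_le_left hwR]
    nlinarith
  have hb : ∀ r : ℕ, (r : ℝ) ≤ 3 * Real.sqrt w → w * 2 ^ l + r ≤ n ^ 4 := by
    intro r hr
    have h8 : (r : ℝ) ≤ ((3 * w : ℕ) : ℝ) := by
      push_cast
      linarith
    have h9 : r ≤ 3 * w := by exact_mod_cast h8
    have h10 : w * 2 ^ l ≤ (n + 1) * n := Nat.mul_le_mul hwn hσ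
    have h11 : (n + 1) * n + 3 * (n + 1) ≤ n ^ 4 := by
      obtain ⟨k, rfl⟩ : ∃ k, n = k + 2 := ⟨n - 2, by omega⟩
      ring_nf
      nlinarith [Nat.zero_le k, Nat.zero_le (k^2), Nat.zero_le (k^3), Nat.zero_le (k^4)]
    omega
  have hV : Fintype.card (Fin w × Fin (2 ^ l)) = w * 2 ^ l := by
    rw [Fintype.card_prod, Fintype.card_fin, Fintype.card_fin]
  rw [hV]
  have hc2 := choose_bound (w * 2 ^ l) (2 ^ s - 1) n w hn hr2 (hb _ hr2)
  have hc3 := choose_bound (w * 2 ^ l) (3 ^ t - 1) n w hn hr3 (hb _ hr3)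
  have hnR : (2 : ℝ) ≤ n := by exact_mod_cast hn
  have hlog1 : 1 ≤ Real.logb 2 n := by
    rw [Real.le_logb_iff_rpow_le (by norm_num) (by linarith)]
    simpa using hnR
  have hlogl : Real.logb 2 n ≤ l + 1 := by
    rw [Real.logb_le_iff_le_rpow (by norm_num) (by linarith)]
    have : (n : ℝ) ≤ 2 ^ (l + 1) := by exact_mod_cast hσ2.le
    calc (n : ℝ) ≤ 2 ^ (l + 1) := this
      _ = (2 : ℝ) ^ ((l : ℝ) + 1) := by
        rw [← Real.rpow_natCast]
        push_cast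
        rfl
  have hlR : (1 : ℝ) ≤ l := by exact_mod_cast hl1
  have hlog2 : Real.logb 2 n ≤ 2 * l := by linarith
  have hln : l ≤ n := by
    have : l < 2 ^ l := Nat.lt_two_pow_self
    omega
  have hwub : (w : ℝ) * l ≤ 2 * n := by
    have h8 : w * l ≤ 2 * n := by
      rw [hw, add_mul, one_mul]
      have := Nat.div_mul_le_self n l
      omega
    exact_mod_cast h8
  have hkey : Real.sqrt w * Real.logb 2 n ≤ 2 * Real.sqrt (n * Real.logb 2 n) := by
    have h8 : Real.sqrt w * Real.logb 2 n = Real.sqrt (w * (Real.logb 2 n) ^ 2) := by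
      rw [Real.sqrt_mul hwR, Real.sqrt_sq (by linarith)]
    have h9 : 2 * Real.sqrt (n * Real.logb 2 n) = Real.sqrt (4 * (n * Real.logb 2 n)) := by
      rw [Real.sqrt_mul (by norm_num : (0:ℝ) ≤ 4) (n * Real.logb 2 n),
        show (4 : ℝ) = 2 ^ 2 by norm_num, Real.sqrt_sq (by norm_num)]
    rw [h8, h9]
    apply Real.sqrt_le_sqrt
    have h10 : (w : ℝ) * Real.logb 2 n ≤ 4 * n := by
      calc (w : ℝ) * Real.logb 2 n ≤ w * (2 * l) := by gcongr
        _ = 2 * (w * l) := by ring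
        _ ≤ 4 * n := by linarith
    calc (w : ℝ) * (Real.logb 2 n) ^ 2 = (w * Real.logb 2 n) * Real.logb 2 n := by ring
      _ ≤ (4 * n) * Real.logb 2 n := by gcongr
      _ = 4 * (n * Real.logb 2 n) := by ring
  have hmono : ∀ z : ℝ, z ≤ (2 : ℝ) ^ (12 * Real.sqrt w * Real.logb 2 n) →
      z ≤ (2 : ℝ) ^ (24 * Real.sqrt (n * Real.logb 2 n)) := by
    intro z hz
    refine hz.trans (Real.rpow_le_rpow_of_exponent_le (by norm_num) ?_)
    calc 12 * Real.sqrt w * Real.logb 2 n = 12 * (Real.sqrt w * Real.logb 2 n) := by ring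
      _ ≤ 12 * (2 * Real.sqrt (n * Real.logb 2 n)) := by gcongr
      _ = 24 * Real.sqrt (n * Real.logb 2 n) := by ring
  have hone : 1 ≤ Real.sqrt (n * Real.logb 2 n) := by
    rw [Real.one_le_sqrt]
    nlinarith
  push_cast
  have e2 := hmono _ hc2
  have e3 := hmono _ hc3
  calc (2 : ℝ) * ((w * 2 ^ l + (2 ^ s - 1)).choose (2 ^ s - 1) : ℕ) +
        4 * ((w * 2 ^ l + (3 ^ t - 1)).choose (3 ^ t - 1) : ℕ)
      ≤ 2 * (2 : ℝ) ^ (24 * Real.sqrt (n * Real.logb 2 n)) +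
        4 * (2 : ℝ) ^ (24 * Real.sqrt (n * Real.logb 2 n)) := by gcongr
    _ ≤ (2 : ℝ) ^ (3 : ℝ) * (2 : ℝ) ^ (24 * Real.sqrt (n * Real.logb 2 n)) := by
        have hp : 0 < (2 : ℝ) ^ (24 * Real.sqrt (n * Real.logb 2 n)) := by positivity
        have : (2 : ℝ) ^ (3 : ℝ) = 8 := by
          rw [show (3 : ℝ) = ((3 : ℕ) : ℝ) by norm_num, Real.rpow_natCast]
          norm_num
        rw [this]
        nlinarith
    _ = (2 : ℝ) ^ (3 + 24 * Real.sqrt (n * Real.logb 2 n)) := by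
        rw [Real.rpow_add (by norm_num)]
    _ ≤ (2 : ℝ) ^ (27 * Real.sqrt (n * Real.logb 2 n)) := by
        apply Real.rpow_le_rpow_of_exponent_le (by norm_num)
        linarith

end Pool.Agent.H570R2
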