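import Mathlib

/-!
Definitions for zero-information Arthur-Merlin (ZAM) communication complexity,
following Goos, Pitassi and Watson.
-/

namespace Pool.Agent.H570R2

/-- A private-coin Arthur-Merlin protocol on `X × Y`: finite nonempty sets `R` (coins of Alice) and
`Q` (coins of Bob), a number `m`, and rectangles `τ_0, …, τ_(m-1)` with
`τ_i = A i ×ˢ B i`, where `A i ⊆ X × R` and `B i ⊆ Y × Q`. -/
structure AMProtocol (X Y : Type) where
  R : Type
  Q : Type
  finR : Fintype R
  finQ : Fintype Q
  neR : Nonempty R
  neQ : Nonempty Q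
  m : ℕ
  A : Fin m → Set (X × R)
  B : Fin m → Set (Y × Q)

namespace AMProtocol

variable {X Y : Type}

/-- The point `((x, r), (y, q))` lies in the rectangle `τ_i = A i ×ˢ B i`. -/
def Hits (P : AMProtocol X Y) (x : X) (y : Y) (r : P.R) (q : P.Q) (i : Fin P.m) : Prop :=
  ((x, r), (y, q)) ∈ P.A i ×ˢ P.B i

/-- The probability of an event about `(r, q)`, for `r ∈ R` and `q ∈ Q` uniform and independent. -/
noncomputable def prob (P : AMProtocol X Y) (E : P.R → P.Q → Prop) : ℚ :=
  (Nat.card {c : P.R × P.Q // E c.1 c.2} : ℚ) / (Nat.card (P.R × P.Q) : ℚ)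

/-- The acceptance probability of the protocol on the input `(x, y)`: the probability that
`((x, r), (y, q))` lies in some `τ_i`. -/
noncomputable def accProb (P : AMProtocol X Y) (x : X) (y : Y) : ℚ :=
  P.prob (fun r q => ∃ i, P.Hits x y r q i)

/-- The cost `⌈log₂ m⌉` of the protocol. -/
def cost (P : AMProtocol X Y) : ℕ := Nat.clog 2 P.m

open Classical in
/-- The index `i` with `((x, r), (y, q)) ∈ τ_i` (for 1-inputs of an unambiguous protocol there is at
most one), or `none` (that is `⊥`) if there is none. -/
noncomputable def index (P : AMProtocol X Y) (x : X) (y : Y) (r : P.R) (q : P.Q) :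
    Option (Fin P.m) :=
  if h : ∃ i, P.Hits x y r q i then some h.choose else none

/-- `P` is a ZAM protocol for `f`: perfect completeness, soundness `1/2`, unambiguity on 1-inputs,
and zero information (the distribution of the index is the same for all 1-inputs). -/
structure IsZAM (P : AMProtocol X Y) (f : X → Y → Bool) : Prop where
  completeness : ∀ x y, f x y = true → P.accProb x y = 1
  soundness : ∀ x y, f x y = false → P.accProb x y ≤ 1 / 2
  unambiguous : ∀ x y, f x y = true → ∀ r q i j, P.Hits x y r q i → P.Hits x y r q j → i = j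
  zeroInformation : ∀ x y x' y', f x y = true → f x' y' = true →
    ∀ o : Option (Fin P.m), P.prob (fun r q => P.index x y r q = o) =
      P.prob (fun r q => P.index x' y' r q = o)

end AMProtocol

/-- `ZAM(f)`: the least cost of a ZAM protocol for `f` (an infimum in `ℕ∞`, so it would be `⊤` if no
protocol existed). -/
noncomputable def ZAM {X Y : Type} (f : X → Y → Bool) : ℕ∞ :=
  ⨅ (P : AMProtocol X Y) (_ : P.IsZAM f), (P.cost : ℕ∞)

end Pool.Agent.H570R2
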