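import Pool.Agent.H570R2.ZamDefs

/-!
The two-point protocol: a generic way of building ZAM protocols.
-/

namespace Pool.Agent.H570R2

open AMProtocol

/-- Two-point data for `f`: Alice has functions `h x : U → W`, Bob has permutations `p y` of `U` and
functionals `b y : W → ZMod 3`; the two values `b y (h x u)` and `b y (h x (p y u))` agree for all `u`
if `f x y = 1` and differ for all `u` if `f x y = 0`. -/
structure TwoPoint {X Y : Type} (f : X → Y → Bool) (U W : Type) [AddCommGroup W] where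
  h : X → U → W
  p : Y → Equiv.Perm U
  b : Y → W →+ ZMod 3
  good : ∀ x y, f x y = true → ∀ u, b y (h x (p y u)) = b y (h x u)
  bad : ∀ x y, f x y = false → ∀ u, b y (h x (p y u)) ≠ b y (h x u)

namespace TwoPoint

variable {X Y : Type} {f : X → Y → Bool} {U W : Type} [AddCommGroup W]

def hitA (D : TwoPoint f U W) (x : X) (c : W) (i : U × W) : Prop := i.2 = c + D.h x i.1

def hitB (D : TwoPoint f U W) (y : Y) (q : U × ZMod 3) (i : U × W) : Prop :=
  (i.1 = q.1 ∧ D.b y i.2 = q.2) ∨ (i.1 = D.p y q.1 ∧ D.b y i.2 ≠ q.2)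

def run (D : TwoPoint f U W) (x : X) (y : Y) (s : W × (U × ZMod 3)) (i : U × W) : Prop :=
  D.hitA x s.1 i ∧ D.hitB y s.2 i

lemma run_unique (D : TwoPoint f U W) {x : X} {y : Y} (hf : f x y = true)
    (s : W × (U × ZMod 3)) {i j : U × W} (hi : D.run x y s i) (hj : D.run x y s j) : i = j := by
  obtain ⟨c, u, t⟩ := s
  obtain ⟨i1, i2⟩ := i
  obtain ⟨j1, j2⟩ := j
  have hg := D.good x y hf u
  simp only [run, hitA, hitB] at hi hj
  obtain ⟨rfl, hi⟩ := hi
  obtain ⟨rfl, hj⟩ := hj
  simp only [map_add] at hi hj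
  rcases hi with ⟨rfl, hi⟩ | ⟨rfl, hi⟩ <;> rcases hj with ⟨rfl, hj⟩ | ⟨rfl, hj⟩
  · rfl
  · rw [hg] at hj
    exact absurd hi hj
  · rw [hg] at hi
    exact absurd hj hi
  · rfl

lemma run_exists (D : TwoPoint f U W) {x : X} {y : Y} (hf : f x y = true)
    (s : W × (U × ZMod 3)) : ∃ i, D.run x y s i := by
  obtain ⟨c, u, t⟩ := s
  have hg := D.good x y hf u
  by_cases h : D.b y (c + D.h x u) = t
  · exact ⟨(u, c + D.h x u), rfl, Or.inl ⟨rfl, h⟩⟩
  · refine ⟨(D.p y u, c + D.h x (D.p y u)), rfl, Or.inr ⟨rfl, ?_⟩⟩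
    simp only [map_add] at h ⊢
    rwa [hg]

lemma card_run (D : TwoPoint f U W) (x : X) (y : Y) (i : U × W) :
    Nat.card {s : W × (U × ZMod 3) // D.run x y s i} = 3 := by
  classical
  have key : ∀ s : W × (U × ZMod 3), D.run x y s i ↔
      (s.1 = i.2 - D.h x i.1 ∧ s.2.1 = if s.2.2 = D.b y i.2 then i.1 else (D.p y).symm i.1) := by
    rintro ⟨c, u, t⟩
    obtain ⟨i1, i2⟩ := i
    simp only [run, hitA, hitB]
    constructor
    · rintro ⟨h1, h2⟩
      refine ⟨by rw [h1]; abel, ?_⟩
      rcases h2 with ⟨h2, h3⟩ | ⟨h2, h3⟩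
      · rw [if_pos h3.symm]; exact h2.symm
      · rw [if_neg (fun h => h3 h.symm), h2]; simp
    · rintro ⟨h1, h2⟩
      refine ⟨by rw [h1]; abel, ?_⟩
      by_cases h3 : t = D.b y i2
      · rw [if_pos h3] at h2
        exact Or.inl ⟨h2.symm, h3.symm⟩
      · rw [if_neg h3] at h2
        refine Or.inr ⟨by rw [h2]; simp, fun h => h3 h.symm⟩
  have e : {s : W × (U × ZMod 3) // D.run x y s i} ≃ ZMod 3 :=
    { toFun := fun s => s.1.2.2
      invFun := fun t => ⟨(i.2 - D.h x i.1,
        ((if t = D.b y i.2 then i.1 else (D.p y).symm i.1), t)), by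
          rw [key]
          exact ⟨rfl, rfl⟩⟩
      left_inv := by
        rintro ⟨⟨c, u, t⟩, hs⟩
        have := (key _).1 hs
        simp only at this
        obtain ⟨h1, h2⟩ := this
        apply Subtype.ext
        simp only [Prod.mk.injEq]
        exact ⟨h1.symm, h2.symm, trivial⟩
      right_inv := by
        intro t
        rfl }
  rw [Nat.card_congr e]
  simp

lemma card_accept (D : TwoPoint f U W) [Finite U] [Finite W] {x : X} {y : Y}
    (hf : f x y = false) :
    Nat.card {s : W × (U × ZMod 3) // ∃ i, D.run x y s i} = 2 * Nat.card (W × U) := by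
  classical
  have key : ∀ s : W × (U × ZMod 3), (∃ i, D.run x y s i) ↔
      s.2.2 - D.b y (s.1 + D.h x (D.p y s.2.1)) ≠ 0 := by
    rintro ⟨c, u, t⟩
    have hb := D.bad x y hf u
    simp only [run, hitA, hitB]
    rw [sub_ne_zero]
    constructor
    · rintro ⟨⟨i1, i2⟩, h1, h2⟩
      simp only at h1 h2
      rcases h2 with ⟨rfl, h3⟩ | ⟨rfl, h3⟩
      · rw [h1] at h3
        rw [← h3]
        simp only [map_add]
        intro h
        exact hb (add_left_cancel h).symm
      · rw [h1] at h3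
        exact fun h => h3 h.symm
    · intro h
      exact ⟨(D.p y u, c + D.h x (D.p y u)), rfl, Or.inr ⟨rfl, fun h' => h h'.symm⟩⟩
  have e : {s : W × (U × ZMod 3) // ∃ i, D.run x y s i} ≃ {t : ZMod 3 // t ≠ 0} × (W × U) :=
    { toFun := fun s => (⟨s.1.2.2 - D.b y (s.1.1 + D.h x (D.p y s.1.2.1)), (key _).1 s.2⟩,
        (s.1.1, s.1.2.1))
      invFun := fun z => ⟨(z.2.1, (z.2.2, z.1.1 + D.b y (z.2.1 + D.h x (D.p y z.2.2)))), by
        rw [key]
        simpa using z.1.2⟩
      left_inv := by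
        rintro ⟨⟨c, u, t⟩, hs⟩
        apply Subtype.ext
        simp
      right_inv := by
        rintro ⟨⟨t, ht⟩, c, u⟩
        simp }
  rw [Nat.card_congr e, Nat.card_prod]
  congr 1
  rw [Nat.card_eq_fintype_card]
  decide

variable [Fintype U] [Fintype W]

/-- The protocol obtained from two-point data by running the two-point protocol twice. -/
noncomputable def proto [Nonempty U] (D : TwoPoint f U W) : AMProtocol X Y where
  R := W × W
  Q := (U × ZMod 3) × (U × ZMod 3)
  finR := inferInstance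
  finQ := inferInstance
  neR := inferInstance
  neQ := inferInstance
  m := Fintype.card ((U × W) × (U × W))
  A := fun i => {s | D.hitA s.1 s.2.1 ((Fintype.equivFin _).symm i).1 ∧
    D.hitA s.1 s.2.2 ((Fintype.equivFin _).symm i).2}
  B := fun i => {s | D.hitB s.1 s.2.1 ((Fintype.equivFin _).symm i).1 ∧
    D.hitB s.1 s.2.2 ((Fintype.equivFin _).symm i).2}

variable [Nonempty U]

lemma hits_iff (D : TwoPoint f U W) (x : X) (y : Y) (r : W × W)
    (q : (U × ZMod 3) × (U × ZMod 3)) (i : Fin (Fintype.card ((U × W) × (U × W)))) :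
    (D.proto).Hits x y r q i ↔
      (D.run x y (r.1, q.1) ((Fintype.equivFin _).symm i).1 ∧
        D.run x y (r.2, q.2) ((Fintype.equivFin _).symm i).2) := by
  constructor
  · rintro ⟨⟨h1, h2⟩, ⟨h3, h4⟩⟩
    exact ⟨⟨h1, h3⟩, ⟨h2, h4⟩⟩
  · rintro ⟨⟨h1, h3⟩, ⟨h2, h4⟩⟩
    exact ⟨⟨h1, h2⟩, ⟨h3, h4⟩⟩

/-- Rearranging the coins. -/
def coins (U W : Type) : (W × W) × ((U × ZMod 3) × (U × ZMod 3)) ≃
    (W × (U × ZMod 3)) × (W × (U × ZMod 3)) :=
  { toFun := fun s => ((s.1.1, s.2.1), (s.1.2, s.2.2))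
    invFun := fun s => ((s.1.1, s.2.1), (s.1.2, s.2.2))
    left_inv := fun _ => rfl
    right_inv := fun _ => rfl }

lemma card_pair {α β : Type} (P : α → Prop) (Q : β → Prop) :
    Nat.card {s : α × β // P s.1 ∧ Q s.2} = Nat.card {a // P a} * Nat.card {b // Q b} := by
  rw [← Nat.card_prod]
  apply Nat.card_congr
  exact
    { toFun := fun s => (⟨s.1.1, s.2.1⟩, ⟨s.1.2, s.2.2⟩)
      invFun := fun s => ⟨(s.1.1, s.2.1), ⟨s.1.2, s.2.2⟩⟩
      left_inv := fun _ => rfl
      right_inv := fun _ => rfl }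

lemma card_hits (D : TwoPoint f U W) (x : X) (y : Y)
    (i : Fin (Fintype.card ((U × W) × (U × W)))) :
    Nat.card {c : D.proto.R × D.proto.Q // D.proto.Hits x y c.1 c.2 i} = 9 := by
  have e : {c : D.proto.R × D.proto.Q // D.proto.Hits x y c.1 c.2 i} ≃
      {s : (W × (U × ZMod 3)) × (W × (U × ZMod 3)) //
        D.run x y s.1 ((Fintype.equivFin _).symm i).1 ∧
        D.run x y s.2 ((Fintype.equivFin _).symm i).2} :=
    Equiv.subtypeEquiv (coins U W) (fun c => D.hits_iff x y c.1 c.2 i)
  rw [Nat.card_congr e, card_pair (fun s => D.run x y s ((Fintype.equivFin _).symm i).1)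
    (fun s => D.run x y s ((Fintype.equivFin _).symm i).2), card_run, card_run]

lemma hits_unique (D : TwoPoint f U W) {x : X} {y : Y} (hf : f x y = true) (r : D.proto.R)
    (q : D.proto.Q) (i j : Fin D.proto.m) (hi : D.proto.Hits x y r q i)
    (hj : D.proto.Hits x y r q j) : i = j := by
  have hi' := (D.hits_iff x y r q i).1 hi
  have hj' := (D.hits_iff x y r q j).1 hj
  apply (Fintype.equivFin ((U × W) × (U × W))).symm.injective
  exact Prod.ext (D.run_unique hf _ hi'.1 hj'.1) (D.run_unique hf _ hi'.2 hj'.2)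

lemma hits_exists (D : TwoPoint f U W) {x : X} {y : Y} (hf : f x y = true) (r : D.proto.R)
    (q : D.proto.Q) : ∃ i, D.proto.Hits x y r q i := by
  obtain ⟨i1, h1⟩ := D.run_exists hf (r.1, q.1)
  obtain ⟨i2, h2⟩ := D.run_exists hf (r.2, q.2)
  refine ⟨Fintype.equivFin _ (i1, i2), ?_⟩
  apply (D.hits_iff x y r q _).2
  simp only [Equiv.symm_apply_apply]
  exact ⟨h1, h2⟩

lemma index_eq_some_iff (D : TwoPoint f U W) {x : X} {y : Y} (hf : f x y = true)
    (r : D.proto.R) (q : D.proto.Q) (i : Fin D.proto.m) :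
    D.proto.index x y r q = some i ↔ D.proto.Hits x y r q i := by
  have hex := D.hits_exists hf r q
  unfold AMProtocol.index
  rw [dif_pos hex]
  simp only [Option.some.injEq]
  constructor
  · intro h
    rw [← h]
    exact hex.choose_spec
  · intro h
    exact D.hits_unique hf r q _ _ hex.choose_spec h

lemma index_ne_none (D : TwoPoint f U W) {x : X} {y : Y} (hf : f x y = true)
    (r : D.proto.R) (q : D.proto.Q) : D.proto.index x y r q ≠ none := by
  have hex := D.hits_exists hf r q
  unfold AMProtocol.index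
  rw [dif_pos hex]
  simp

lemma card_coins (D : TwoPoint f U W) :
    Nat.card (D.proto.R × D.proto.Q) = (3 * Nat.card (W × U)) ^ 2 := by
  have : Nat.card (D.proto.R × D.proto.Q) =
      Nat.card ((W × (U × ZMod 3)) × (W × (U × ZMod 3))) := Nat.card_congr (coins U W)
  rw [this]
  simp only [Nat.card_prod]
  have : Nat.card (ZMod 3) = 3 := by simp
  rw [this]
  ring

lemma card_coins_pos (D : TwoPoint f U W) : 0 < Nat.card (D.proto.R × D.proto.Q) := by
  rw [card_coins]
  have : 0 < Nat.card (W × U) := Nat.card_pos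
  positivity

theorem proto_isZAM (D : TwoPoint f U W) : D.proto.IsZAM f where
  completeness := by
    intro x y hf
    unfold AMProtocol.accProb AMProtocol.prob
    have e : {c : D.proto.R × D.proto.Q // ∃ i, D.proto.Hits x y c.1 c.2 i} ≃
        D.proto.R × D.proto.Q :=
      Equiv.subtypeUnivEquiv (fun c => D.hits_exists hf c.1 c.2)
    rw [Nat.card_congr e]
    have := D.card_coins_pos
    exact div_self (by exact_mod_cast this.ne')
  soundness := by
    intro x y hf
    unfold AMProtocol.accProb AMProtocol.prob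
    have e : {c : D.proto.R × D.proto.Q // ∃ i, D.proto.Hits x y c.1 c.2 i} ≃
        {s : (W × (U × ZMod 3)) × (W × (U × ZMod 3)) //
          (∃ i, D.run x y s.1 i) ∧ (∃ i, D.run x y s.2 i)} := by
      refine Equiv.subtypeEquiv (coins U W) (fun c => ?_)
      constructor
      · rintro ⟨i, hi⟩
        have := (D.hits_iff x y c.1 c.2 i).1 hi
        exact ⟨⟨_, this.1⟩, ⟨_, this.2⟩⟩
      · rintro ⟨⟨i1, h1⟩, ⟨i2, h2⟩⟩
        refine ⟨Fintype.equivFin _ (i1, i2), ?_⟩
        apply (D.hits_iff x y c.1 c.2 _).2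
        simp only [Equiv.symm_apply_apply]
        exact ⟨h1, h2⟩
    rw [Nat.card_congr e, card_pair (fun s => ∃ i, D.run x y s i) (fun s => ∃ i, D.run x y s i),
      D.card_accept hf, D.card_coins]
    have hpos : 0 < (Nat.card (W × U) : ℚ) := by
      have : 0 < Nat.card (W × U) := Nat.card_pos
      exact_mod_cast this
    push_cast
    rw [div_le_div_iff₀ (by positivity) (by norm_num)]
    nlinarith [mul_pos hpos hpos]
  unambiguous := by
    intro x y hf r q i j hi hj
    exact D.hits_unique hf r q i j hi hj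
  zeroInformation := by
    intro x y x' y' hf hf' o
    unfold AMProtocol.prob
    congr 2
    cases o with
    | none =>
      have e1 : IsEmpty {c : D.proto.R × D.proto.Q // D.proto.index x y c.1 c.2 = none} :=
        ⟨fun c => D.index_ne_none hf _ _ c.2⟩
      have e2 : IsEmpty {c : D.proto.R × D.proto.Q // D.proto.index x' y' c.1 c.2 = none} :=
        ⟨fun c => D.index_ne_none hf' _ _ c.2⟩
      rw [Nat.card_of_isEmpty, Nat.card_of_isEmpty]
    | some i =>
      have e1 : {c : D.proto.R × D.proto.Q // D.proto.index x y c.1 c.2 = some i} ≃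
          {c : D.proto.R × D.proto.Q // D.proto.Hits x y c.1 c.2 i} :=
        Equiv.subtypeEquivRight (fun c => D.index_eq_some_iff hf c.1 c.2 i)
      have e2 : {c : D.proto.R × D.proto.Q // D.proto.index x' y' c.1 c.2 = some i} ≃
          {c : D.proto.R × D.proto.Q // D.proto.Hits x' y' c.1 c.2 i} :=
        Equiv.subtypeEquivRight (fun c => D.index_eq_some_iff hf' c.1 c.2 i)
      rw [Nat.card_congr e1, Nat.card_congr e2]
      exact (D.card_hits x y i).trans (D.card_hits x' y' i).symm

theorem ZAM_le (D : TwoPoint f U W) :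
    ZAM f ≤ (Nat.clog 2 ((Fintype.card U * Fintype.card W) ^ 2) : ℕ) := by
  unfold ZAM
  refine iInf_le_of_le D.proto (iInf_le_of_le D.proto_isZAM ?_)
  unfold AMProtocol.cost
  have : D.proto.m = (Fintype.card U * Fintype.card W) ^ 2 := by
    change Fintype.card ((U × W) × (U × W)) = _
    simp only [Fintype.card_prod]
    ring
  rw [this]

end TwoPoint

end Pool.Agent.H570R2
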