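import Pool.Agent.H570R2.ZamGeneric

/-!
Matching vectors mod 2 and mod 3, and the resulting ZAM protocols.
-/

namespace Pool.Agent.H570R2

open Finset

lemma choose_add_prime_pow (p t n k : ℕ) [Fact p.Prime] (hk : k < p ^ t) :
    (((n + p ^ t).choose k : ℕ) : ZMod p) = ((n.choose k : ℕ) : ZMod p) := by
  have h1 : ((Polynomial.X + 1 : Polynomial (ZMod p)) ^ (n + p ^ t)) =
      (Polynomial.X + 1) ^ n * Polynomial.X ^ (p ^ t) + (Polynomial.X + 1) ^ n := by
    rw [pow_add, add_pow_char_pow]
    ring
  have h2 := congrArg (fun q => Polynomial.coeff q k) h1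
  simp only [Polynomial.coeff_add, Polynomial.coeff_X_add_one_pow,
    Polynomial.coeff_mul_X_pow'] at h2
  rw [if_neg (by omega), zero_add] at h2
  exact h2

lemma choose_mod_prime_pow (p t j : ℕ) [hp : Fact p.Prime] :
    (((j + (p ^ t - 1)).choose (p ^ t - 1) : ℕ) : ZMod p) = if p ^ t ∣ j then 1 else 0 := by
  have hq : 0 < p ^ t := pow_pos hp.out.pos t
  induction j using Nat.strong_induction_on with
  | _ j ih =>
    rcases Nat.eq_zero_or_pos j with rfl | hj
    · simp
    · have e : j + (p ^ t - 1) = (j - 1) + p ^ t := by omega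
      rw [e, choose_add_prime_pow p t (j - 1) (p ^ t - 1) (by omega)]
      by_cases hlt : j < p ^ t
      · rw [Nat.choose_eq_zero_of_lt (by omega), if_neg]
        · simp
        · exact fun h => absurd (Nat.le_of_dvd hj h) (by omega)
      · have e2 : j - 1 = (j - p ^ t) + (p ^ t - 1) := by omega
        rw [e2, ih (j - p ^ t) (by omega)]
        have e3 : (p ^ t ∣ j - p ^ t) ↔ p ^ t ∣ j := by
          have := Nat.dvd_sub_self_right (m := p ^ t) (n := j)
          constructor
          · intro h
            have h2 := Nat.dvd_add h (dvd_refl (p ^ t))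
            rwa [Nat.sub_add_cancel (by omega)] at h2
          · intro h
            exact Nat.dvd_sub h (dvd_refl _)
        simp only [e3]

section MV

variable {V : Type} [Fintype V] [DecidableEq V]

/-- The index type: `r`-subsets of `V ⊕ Fin r`. -/
abbrev Idx (V : Type) [Fintype V] [DecidableEq V] (r : ℕ) : Type :=
  ↥(Finset.powersetCard r (univ : Finset (V ⊕ Fin r)))

lemma card_Idx (r : ℕ) : Fintype.card (Idx V r) = (Fintype.card V + r).choose r := by
  rw [Fintype.card_coe, Finset.card_powersetCard, Finset.card_univ, Fintype.card_sum,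
    Fintype.card_fin]

/-- The vector of a set `S`: the `r`-sets avoiding `S`. -/
def av (p r : ℕ) (S : Finset V) (R : Idx V r) : ZMod p :=
  if Disjoint R.1 (S.disjSum (∅ : Finset (Fin r))) then 1 else 0

/-- The dual vector of a set `S`: the `r`-sets inside `S ⊕ Fin r`. -/
def bv (p r : ℕ) (S : Finset V) (R : Idx V r) : ZMod p :=
  if R.1 ⊆ S.disjSum (univ : Finset (Fin r)) then 1 else 0

lemma inner_av_bv (p r : ℕ) (S T : Finset V) :
    ∑ R : Idx V r, av p r S R * bv p r T R = (((T \ S).card + r).choose r : ℕ) := by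
  have h1 : ∀ R : Idx V r, av p r S R * bv p r T R =
      (fun R : Finset (V ⊕ Fin r) => if (Disjoint R (S.disjSum (∅ : Finset (Fin r))) ∧
        R ⊆ T.disjSum (univ : Finset (Fin r))) then (1 : ZMod p) else 0) R.1 := by
    intro R
    unfold av bv
    by_cases h1 : Disjoint R.1 (S.disjSum (∅ : Finset (Fin r))) <;>
      by_cases h2 : R.1 ⊆ T.disjSum (univ : Finset (Fin r)) <;> simp [h2]
  rw [Finset.sum_congr rfl (fun R _ => h1 R)]
  rw [Finset.sum_coe_sort (Finset.powersetCard r (univ : Finset (V ⊕ Fin r)))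
    (fun R : Finset (V ⊕ Fin r) => if (Disjoint R (S.disjSum (∅ : Finset (Fin r))) ∧
        R ⊆ T.disjSum (univ : Finset (Fin r))) then (1 : ZMod p) else 0)]
  rw [Finset.sum_boole]
  congr 1
  have h2 : (Finset.powersetCard r (univ : Finset (V ⊕ Fin r))).filter
      (fun R => Disjoint R (S.disjSum (∅ : Finset (Fin r))) ∧
        R ⊆ T.disjSum (univ : Finset (Fin r))) =
      Finset.powersetCard r ((T \ S).disjSum (univ : Finset (Fin r))) := by
    ext R
    simp only [Finset.mem_filter, Finset.mem_powersetCard, Finset.subset_univ, true_and]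
    constructor
    · rintro ⟨hc, hd, hs⟩
      refine ⟨?_, hc⟩
      intro a ha
      have h3 := hs ha
      have h4 := (Finset.disjoint_left.1 hd) ha
      rcases a with a | a
      · simp only [Finset.inl_mem_disjSum] at h3 h4 ⊢
        exact Finset.mem_sdiff.2 ⟨h3, h4⟩
      · simp
    · rintro ⟨hs, hc⟩
      refine ⟨hc, ?_, ?_⟩
      · rw [Finset.disjoint_left]
        intro a ha
        have h3 := hs ha
        rcases a with a | a
        · simp only [Finset.inl_mem_disjSum] at h3 ⊢
          exact (Finset.mem_sdiff.1 h3).2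
        · simp
      · intro a ha
        have h3 := hs ha
        rcases a with a | a
        · simp only [Finset.inl_mem_disjSum] at h3 ⊢
          exact (Finset.mem_sdiff.1 h3).1
        · simp
  rw [h2, Finset.card_powersetCard, Finset.card_disjSum, Finset.card_univ, Fintype.card_fin]

/-- The sign character `ZMod 2 → ZMod 3`. -/
def sgn (t : ZMod 2) : ZMod 3 := if t = 0 then 1 else -1

lemma sgn_add (s t : ZMod 2) : sgn (s + t) = sgn s * sgn t := by
  revert s t
  decide

lemma sgn_ne (s : ZMod 2) : sgn s ≠ 0 := by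
  revert s
  decide

/-- Pairing with a vector, as an additive homomorphism. -/
def pairing {I : Type} [Fintype I] (b : I → ZMod 3) : (I → ZMod 3) →+ ZMod 3 where
  toFun := fun w => ∑ R, w R * b R
  map_zero' := by simp
  map_add' := by
    intro w w'
    simp only [Pi.add_apply, add_mul]
    rw [Finset.sum_add_distrib]

variable {X Y : Type} [Fintype Y]

/-- The function of Alice. -/
def hfun (f : X → Y → Bool) (S : Y → Finset V) (r2 r3 : ℕ) (x : X)
    (u : Idx V r2 → ZMod 2) : Idx V r3 → ZMod 3 :=
  fun R => ∑ i ∈ univ.filter (fun i => f x i = false),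
    sgn (∑ T, av 2 r2 (S i) T * u T) * av 3 r3 (S i) R

lemma pairing_hfun (f : X → Y → Bool) (S : Y → Finset V) (r2 r3 : ℕ) (x : X) (y : Y)
    (u : Idx V r2 → ZMod 2) :
    pairing (bv 3 r3 (S y)) (hfun f S r2 r3 x u) =
      ∑ i ∈ univ.filter (fun i => f x i = false),
        sgn (∑ T, av 2 r2 (S i) T * u T) * (((S y \ S i).card + r3).choose r3 : ℕ) := by
  simp only [pairing, hfun, AddMonoidHom.coe_mk, ZeroHom.coe_mk]
  simp only [Finset.sum_mul]
  rw [Finset.sum_comm]
  apply Finset.sum_congr rfl
  intro i _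
  rw [← inner_av_bv, Finset.mul_sum]
  apply Finset.sum_congr rfl
  intro R _
  ring

lemma pairing_hfun_shift (f : X → Y → Bool) (S : Y → Finset V) (r2 r3 : ℕ) (x : X) (y : Y)
    (u : Idx V r2 → ZMod 2) :
    pairing (bv 3 r3 (S y)) (hfun f S r2 r3 x (u + bv 2 r2 (S y))) =
      ∑ i ∈ univ.filter (fun i => f x i = false),
        sgn (∑ T, av 2 r2 (S i) T * u T) * sgn (((S y \ S i).card + r2).choose r2 : ℕ) *
          (((S y \ S i).card + r3).choose r3 : ℕ) := by
  rw [pairing_hfun]
  apply Finset.sum_congr rfl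
  intro i _
  congr 1
  rw [← sgn_add]
  congr 1
  rw [← inner_av_bv, ← Finset.sum_add_distrib]
  apply Finset.sum_congr rfl
  intro T _
  simp only [Pi.add_apply]
  ring

/-- The two-point data of an antichain. -/
def mvData [DecidableEq Y] (f : X → Y → Bool) (S : Y → Finset V) (w s t : ℕ) (hw : ∀ y, (S y).card ≤ w)
    (hS : ∀ y y', y ≠ y' → ¬ S y ⊆ S y') (hst : w < 2 ^ s * 3 ^ t) :
    TwoPoint f (Idx V (2 ^ s - 1) → ZMod 2) (Idx V (3 ^ t - 1) → ZMod 3) where
  h := hfun f S (2 ^ s - 1) (3 ^ t - 1)
  p := fun y => Equiv.addRight (bv 2 (2 ^ s - 1) (S y))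
  b := fun y => pairing (bv 3 (3 ^ t - 1) (S y))
  good := by
    intro x y hf u
    simp only [Equiv.coe_addRight]
    rw [pairing_hfun_shift, pairing_hfun]
    apply Finset.sum_congr rfl
    intro i hi
    have hiy : y ≠ i := by
      rintro rfl
      rw [Finset.mem_filter] at hi
      rw [hf] at hi
      exact absurd hi.2 (by decide)
    have h2 := choose_mod_prime_pow 2 s ((S y \ S i).card)
    have h3 := choose_mod_prime_pow 3 t ((S y \ S i).card)
    have hpos : 0 < (S y \ S i).card := by
      rw [Finset.card_pos, Finset.sdiff_nonempty]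
      exact hS y i hiy
    have hle : (S y \ S i).card ≤ w := (Finset.card_le_card Finset.sdiff_subset).trans (hw y)
    by_cases hd : 3 ^ t ∣ (S y \ S i).card
    · have hnd : ¬ 2 ^ s ∣ (S y \ S i).card := by
        intro hd2
        have hcop : Nat.Coprime (2 ^ s) (3 ^ t) :=
          Nat.Coprime.pow s t (by norm_num)
        have := Nat.le_of_dvd hpos (hcop.mul_dvd_of_dvd_of_dvd hd2 hd)
        omega
      rw [h2, if_neg hnd]
      simp [sgn]
    · rw [h3, if_neg hd]
      simp
  bad := by
    intro x y hf u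
    simp only [Equiv.coe_addRight]
    rw [pairing_hfun_shift, pairing_hfun, ← sub_ne_zero, ← Finset.sum_sub_distrib]
    rw [Finset.sum_eq_single_of_mem y (by rw [Finset.mem_filter]; exact ⟨Finset.mem_univ _, hf⟩)]
    · have h2 := choose_mod_prime_pow 2 s ((S y \ S y).card)
      have h3 := choose_mod_prime_pow 3 t ((S y \ S y).card)
      rw [h2, h3]
      simp only [Finset.sdiff_self, Finset.card_empty, dvd_zero, if_true, mul_one]
      have : sgn (1 : ZMod 2) = -1 := by decide
      rw [this]
      generalize hz : sgn (∑ T, av 2 (2 ^ s - 1) (S y) T * u T) = z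
      have hz0 : z ≠ 0 := by
        rw [← hz]
        exact sgn_ne _
      clear hz
      revert z
      decide
    · intro i hi hiy
      have h2 := choose_mod_prime_pow 2 s ((S y \ S i).card)
      have h3 := choose_mod_prime_pow 3 t ((S y \ S i).card)
      have hpos : 0 < (S y \ S i).card := by
        rw [Finset.card_pos, Finset.sdiff_nonempty]
        exact hS y i (Ne.symm hiy)
      have hle : (S y \ S i).card ≤ w := (Finset.card_le_card Finset.sdiff_subset).trans (hw y)
      by_cases hd : 3 ^ t ∣ (S y \ S i).card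
      · have hnd : ¬ 2 ^ s ∣ (S y \ S i).card := by
          intro hd2
          have hcop : Nat.Coprime (2 ^ s) (3 ^ t) :=
            Nat.Coprime.pow s t (by norm_num)
          have := Nat.le_of_dvd hpos (hcop.mul_dvd_of_dvd_of_dvd hd2 hd)
          omega
        rw [h2, if_neg hnd]
        simp [sgn]
      · rw [h3, if_neg hd]
        simp

theorem ZAM_le_of_antichain [DecidableEq Y] (f : X → Y → Bool) (S : Y → Finset V) (w s t : ℕ)
    (hw : ∀ y, (S y).card ≤ w) (hS : ∀ y y', y ≠ y' → ¬ S y ⊆ S y')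
    (hst : w < 2 ^ s * 3 ^ t) :
    ZAM f ≤ ((2 * (Fintype.card V + (2 ^ s - 1)).choose (2 ^ s - 1) +
      4 * (Fintype.card V + (3 ^ t - 1)).choose (3 ^ t - 1) : ℕ) : ℕ∞) := by
  refine (TwoPoint.ZAM_le (mvData f S w s t hw hS hst)).trans ?_
  rw [Nat.cast_le]
  rw [Fintype.card_fun, Fintype.card_fun, card_Idx, card_Idx, ZMod.card, ZMod.card]
  apply Nat.clog_le_of_le_pow
  set L := (Fintype.card V + (2 ^ s - 1)).choose (2 ^ s - 1)
  set K := (Fintype.card V + (3 ^ t - 1)).choose (3 ^ t - 1)
  calc (2 ^ L * 3 ^ K) ^ 2 ≤ (2 ^ L * 4 ^ K) ^ 2 := by gcongr; norm_num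
    _ = 2 ^ (2 * L + 4 * K) := by
      have : (4 : ℕ) = 2 ^ 2 := by norm_num
      rw [this, ← pow_mul, ← pow_add, ← pow_mul]
      congr 1
      ring

end MV

end Pool.Agent.H570R2
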